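import Mathlib

/-!
# Prescribing the orders of Q-normality

For every set `A` of positive integers there are a fully divergent basic sequence `Q` and a real
number `x` that is `Q`-normal exactly of the orders in `A`.
-/

set_option autoImplicit false

namespace Pool.Agent.Results.MP_f007e6_nt.Orders

open Finset Filter


/-! ### Definitions -/

/-- A basic sequence `q_1, q_2, …` (the value `q 0` is not used). -/
def IsBasic (q : ℕ → ℕ) : Prop := ∀ n, 1 ≤ n → 2 ≤ q n

/-- The product `q_1 q_2 ⋯ q_n`. -/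
def prodQ (q : ℕ → ℕ) (n : ℕ) : ℕ := ∏ i ∈ Finset.Icc 1 n, q i

/-- `E₀` and `E 1, E 2, …` are the integer part and the digits of the `Q`-Cantor series expansion
of `x` (the value `E 0` is not used). -/
structure IsExpansion (q : ℕ → ℕ) (x : ℝ) (E₀ : ℤ) (E : ℕ → ℕ) : Prop where
  floor : E₀ = ⌊x⌋
  lt : ∀ n, 1 ≤ n → E n < q n
  ne : ∀ m, ∃ n, m ≤ n ∧ 1 ≤ n ∧ E n ≠ q n - 1
  sum : HasSum (fun n : ℕ => (E (n + 1) : ℝ) / prodQ q (n + 1)) (x - E₀)

/-- The number of indices `1 ≤ i ≤ n` with `(E i, …, E (i + k - 1)) = B`. -/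
def occurrences (E : ℕ → ℕ) {k : ℕ} (B : Fin k → ℕ) (n : ℕ) : ℕ :=
  #{i ∈ Finset.Icc 1 n | ∀ s : Fin k, E (i + s) = B s}

/-- The normalising sum `Q_n^{(k)}`. -/
noncomputable def Qsum (q : ℕ → ℕ) (k n : ℕ) : ℝ :=
  ∑ i ∈ Finset.Icc 1 n, 1 / ∏ s ∈ Finset.range k, (q (i + s) : ℝ)

/-- `q` is `k`-divergent for every `k ≥ 1`. -/
def FullyDivergent (q : ℕ → ℕ) : Prop := ∀ k, 1 ≤ k → Tendsto (Qsum q k) atTop atTop

/-- `x` is `Q`-normal of order `k`. -/
def IsNormal (q : ℕ → ℕ) (k : ℕ) (x : ℝ) : Prop :=
  ∃ E₀ E, IsExpansion q x E₀ E ∧ ∀ B : Fin k → ℕ,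
    Tendsto (fun n => (occurrences E B n : ℝ) / Qsum q k n) atTop (nhds 1)

/-- The set `N_k(Q)`. -/
def normalSet (q : ℕ → ℕ) (k : ℕ) : Set ℝ := {x | IsNormal q k x}

/-! ### Occurrences of a block in a list -/

/-- The number of occurrences of the list `B` as a block of consecutive entries of a list. -/
def occ (B : List ℕ) : List ℕ → ℕ
  | [] => 0
  | a :: l => (if B <+: (a :: l) then 1 else 0) + occ B l

theorem occ_cons (B : List ℕ) (a : ℕ) (l : List ℕ) :
    occ B (a :: l) = (if B <+: (a :: l) then 1 else 0) + occ B l := rfl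

theorem occ_le_length (B l : List ℕ) : occ B l ≤ l.length := by
  induction l with
  | nil => exact le_rfl
  | cons a l ih =>
    rw [occ_cons, List.length_cons]
    split_ifs <;> omega

theorem occ_append_le (B l₁ l₂ : List ℕ) : occ B (l₁ ++ l₂) ≤ l₁.length + occ B l₂ := by
  induction l₁ with
  | nil => simp
  | cons a l ih =>
    rw [List.cons_append, occ_cons, List.length_cons]
    split_ifs <;> omega

theorem le_occ_append (B l₁ l₂ : List ℕ) : occ B l₂ ≤ occ B (l₁ ++ l₂) := by
  induction l₁ with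
  | nil => simp
  | cons a l ih =>
    rw [List.cons_append, occ_cons]
    omega

theorem occ_sep (B : List ℕ) (hB : B ≠ []) (M : ℕ) (hM : M ∉ B) (l₁ l₂ : List ℕ) :
    occ B (l₁ ++ M :: l₂) = occ B l₁ + occ B l₂ := by
  induction l₁ with
  | nil =>
    rw [List.nil_append, occ_cons, if_neg]
    · rfl
    · intro h
      cases B with
      | nil => exact hB rfl
      | cons b B =>
        rw [List.cons_prefix_cons] at h
        exact hM (by rw [h.1]; exact List.mem_cons_self)
  | cons a l ih =>
    rw [List.cons_append, occ_cons, occ_cons, ih]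
    have hiff : (B <+: a :: (l ++ M :: l₂)) ↔ (B <+: a :: l) := by
      constructor
      · intro h
        have h2 : (a :: l) ++ [M] <+: a :: (l ++ M :: l₂) := by
          refine ⟨l₂, ?_⟩
          simp
        rcases List.prefix_or_prefix_of_prefix h h2 with h3 | h3
        · rcases List.prefix_concat_iff.1 h3 with h4 | h4
          · exfalso
            apply hM
            rw [h4]
            simp
          · exact h4
        · exfalso
          apply hM
          exact h3.subset (by simp)
      · intro h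
        exact h.trans ⟨M :: l₂, by simp⟩
    by_cases h : B <+: a :: l
    · rw [if_pos h, if_pos (hiff.2 h)]
      ring
    · rw [if_neg h, if_neg (fun h' => h (hiff.1 h'))]
      ring

theorem occ_short (B l : List ℕ) (h : l.length < B.length) : occ B l = 0 := by
  induction l with
  | nil => rfl
  | cons a l ih =>
    rw [List.length_cons] at h
    rw [occ_cons, ih (by omega), if_neg]
    intro h2
    have := h2.length_le
    rw [List.length_cons] at this
    omega

theorem occ_same (B l : List ℕ) (hB : B ≠ []) (h : l.length = B.length) :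
    occ B l = if l = B then 1 else 0 := by
  cases l with
  | nil =>
    exfalso
    apply hB
    exact List.eq_nil_of_length_eq_zero h.symm
  | cons a l =>
    rw [occ_cons, occ_short B l (by rw [List.length_cons] at h; omega), add_zero]
    by_cases h2 : a :: l = B
    · rw [if_pos h2, if_pos]
      rw [h2]
    · rw [if_neg h2, if_neg]
      intro h3
      exact h2 (h3.eq_of_length h.symm).symm

/-- The concatenation of the blocks in `L`, each followed by the separator `M`. -/
def cat (M : ℕ) (L : List (List ℕ)) : List ℕ := L.flatMap fun C => C ++ [M]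

theorem occ_cat (B : List ℕ) (hB : B ≠ []) (M : ℕ) (hM : M ∉ B) (L : List (List ℕ))
    (l : List ℕ) : occ B (cat M L ++ l) = (L.map (occ B)).sum + occ B l := by
  induction L with
  | nil => simp [cat]
  | cons C L ih =>
    have h1 : cat M (C :: L) ++ l = C ++ M :: (cat M L ++ l) := by
      simp [cat]
    rw [h1, occ_sep B hB M hM, ih, List.map_cons, List.sum_cons, add_assoc]

theorem occ_replicate (B : List ℕ) (hB : B ≠ []) (M : ℕ) (hM : M ∉ B) (r : ℕ) :
    occ B (List.replicate r M) = 0 := by
  induction r with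
  | zero => rfl
  | succ r ih =>
    rw [List.replicate_succ]
    have := occ_sep B hB M hM [] (List.replicate r M)
    rw [List.nil_append] at this
    rw [this, ih]
    rfl

theorem occ_rep (B : List ℕ) (hB : B ≠ []) (M : ℕ) (hM : M ∉ B) (w : List ℕ) (r : ℕ)
    (l : List ℕ) :
    occ B ((List.replicate r (w ++ [M])).flatten ++ l) = r * occ B (w ++ [M]) + occ B l := by
  induction r with
  | zero => simp
  | succ r ih =>
    have h1 : (List.replicate (r + 1) (w ++ [M])).flatten ++ l
        = w ++ M :: ((List.replicate r (w ++ [M])).flatten ++ l) := by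
      rw [List.replicate_succ, List.flatten_cons]
      simp
    have h2 : occ B (w ++ [M]) = occ B w := by
      rw [occ_sep B hB M hM]
      rfl
    rw [h1, occ_sep B hB M hM, ih, h2]
    ring

/-! ### The words -/

/-- The base used in stage `t`. -/
def bs (t : ℕ) : ℕ := (t + 2) ^ (t + 4)

/-- The length of the word of stage `t`. -/
def Len (t : ℕ) : ℕ := bs t ^ t

/-- The separator of stage `t`. -/
def Sep (t : ℕ) : ℕ := bs t - 2

theorem bs_pos (t : ℕ) : 0 < bs t := Nat.pow_pos (by omega)

theorem bs_ge (t : ℕ) : t + 2 ≤ bs t := by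
  unfold bs
  calc t + 2 = (t + 2) ^ 1 := (pow_one _).symm
    _ ≤ (t + 2) ^ (t + 4) := Nat.pow_le_pow_right (by omega) (by omega)

theorem Len_pos (t : ℕ) : 0 < Len t := Nat.pow_pos (bs_pos t)

theorem bs_mono {s t : ℕ} (h : s ≤ t) : bs s ≤ bs t := by
  unfold bs
  calc (s + 2) ^ (s + 4) ≤ (t + 2) ^ (s + 4) := Nat.pow_le_pow_left (by omega) _
    _ ≤ (t + 2) ^ (t + 4) := Nat.pow_le_pow_right (by omega) (by omega)

theorem bs_big (t : ℕ) : (t + 1) ^ 2 * t ^ (t + 1) < bs t := by
  have h1 : (t + 1) ^ 2 * t ^ (t + 1) ≤ (t + 2) ^ 2 * (t + 2) ^ (t + 1) :=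
    Nat.mul_le_mul (Nat.pow_le_pow_left (by omega) _) (Nat.pow_le_pow_left (by omega) _)
  have h2 : (t + 2) ^ 2 * (t + 2) ^ (t + 1) < (t + 2) ^ (t + 4) := by
    rw [← pow_add]
    exact Nat.pow_lt_pow_right (by omega) (by omega)
  exact lt_of_le_of_lt h1 h2

/-- All lists of length `k` with entries `< t`. -/
noncomputable def blocks (t k : ℕ) : List (List ℕ) :=
  (Finset.univ : Finset (Fin k → Fin t)).toList.map fun f => List.ofFn fun i => (f i : ℕ)

open Classical in
/-- Every block of length `k ∈ A`, `1 ≤ k ≤ t`, with entries `< t`, repeated `bs t ^ (t - k)`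
times. -/
noncomputable def atoms (A : Set ℕ) (t : ℕ) : List (List ℕ) :=
  (List.range (t + 1)).flatMap fun k =>
    if k ∈ A ∧ 1 ≤ k then (blocks t k).flatMap fun C => List.replicate (bs t ^ (t - k)) C else []

theorem sum_map_flatMap {α β : Type} (l : List α) (f : α → List β) (g : β → ℕ) :
    ((l.flatMap f).map g).sum = (l.map fun a => ((f a).map g).sum).sum := by
  induction l with
  | nil => simp
  | cons a l ih => simp [ih]

theorem sum_list_range (h : ℕ → ℕ) (n : ℕ) :
    ((List.range n).map h).sum = ∑ k ∈ Finset.range n, h k := by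
  induction n with
  | zero => simp
  | succ n ih =>
    rw [List.range_succ, Finset.sum_range_succ, List.map_append, List.sum_append, ih]
    simp

open Classical in
theorem sum_atoms (A : Set ℕ) (t : ℕ) (g : List ℕ → ℕ) :
    ((atoms A t).map g).sum = ∑ k ∈ Finset.range (t + 1), if k ∈ A ∧ 1 ≤ k then
      bs t ^ (t - k) * ∑ f : Fin k → Fin t, g (List.ofFn fun i => (f i : ℕ)) else 0 := by
  unfold atoms
  rw [sum_map_flatMap, sum_list_range]
  apply Finset.sum_congr rfl
  intro k _
  split_ifs with h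
  · rw [sum_map_flatMap]
    unfold blocks
    rw [List.map_map, Finset.mul_sum, ← Finset.sum_map_toList]
    congr 1
    apply List.map_congr_left
    intro f _
    simp
  · simp

theorem card_fun (t k : ℕ) : (Finset.univ : Finset (Fin k → Fin t)).card = t ^ k := by
  rw [Finset.card_univ, Fintype.card_fun, Fintype.card_fin, Fintype.card_fin]

theorem length_cat (M : ℕ) (L : List (List ℕ)) :
    (cat M L).length = (L.map fun C => C.length + 1).sum := by
  induction L with
  | nil => rfl
  | cons C L ih =>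
    have h1 : cat M (C :: L) = C ++ [M] ++ cat M L := by simp [cat]
    rw [h1, List.length_append, List.length_append, ih, List.map_cons, List.sum_cons]
    simp

theorem length_lt (A : Set ℕ) (t : ℕ) : (cat (Sep t) (atoms A t)).length < Len t := by
  classical
  rw [length_cat, sum_atoms]
  rcases Nat.eq_zero_or_pos t with rfl | ht
  · simp [Len]
  · have h1 : ∀ k ∈ Finset.range (t + 1), (if k ∈ A ∧ 1 ≤ k then
        bs t ^ (t - k) * ∑ f : Fin k → Fin t,
          ((List.ofFn fun i => (f i : ℕ)).length + 1) else 0)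
        ≤ bs t ^ (t - 1) * (t ^ t * (t + 1)) := by
      intro k hk
      rw [Finset.mem_range] at hk
      split_ifs with h
      · have h2 : ∑ f : Fin k → Fin t, ((List.ofFn fun i => (f i : ℕ)).length + 1)
            = t ^ k * (k + 1) := by
          simp only [List.length_ofFn]
          rw [Finset.sum_const, card_fun, smul_eq_mul]
        rw [h2]
        refine Nat.mul_le_mul (Nat.pow_le_pow_right (bs_pos t) (by omega)) ?_
        exact Nat.mul_le_mul (Nat.pow_le_pow_right ht (by omega)) (by omega)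
      · exact Nat.zero_le _
    refine lt_of_le_of_lt (Finset.sum_le_sum h1) ?_
    rw [Finset.sum_const, Finset.card_range, smul_eq_mul]
    have h3 : Len t = bs t ^ (t - 1) * bs t := by
      unfold Len
      rw [← pow_succ, Nat.sub_add_cancel ht]
    rw [h3]
    have h4 : (t + 1) * (t ^ t * (t + 1)) < bs t := by
      refine lt_of_le_of_lt ?_ (bs_big t)
      calc (t + 1) * (t ^ t * (t + 1)) = (t + 1) ^ 2 * t ^ t := by ring
        _ ≤ (t + 1) ^ 2 * t ^ (t + 1) :=
            Nat.mul_le_mul_left _ (Nat.pow_le_pow_right ht (by omega))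
    calc (t + 1) * (bs t ^ (t - 1) * (t ^ t * (t + 1)))
        = bs t ^ (t - 1) * ((t + 1) * (t ^ t * (t + 1))) := by ring
      _ < bs t ^ (t - 1) * bs t := Nat.mul_lt_mul_of_pos_left h4 (Nat.pow_pos (bs_pos t))

/-- The word of stage `t`. -/
noncomputable def word (A : Set ℕ) (t : ℕ) : List ℕ :=
  cat (Sep t) (atoms A t) ++
    List.replicate (Len t - (cat (Sep t) (atoms A t)).length) (Sep t)

theorem length_word (A : Set ℕ) (t : ℕ) : (word A t).length = Len t := by
  have := length_lt A t
  unfold word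
  rw [List.length_append, List.length_replicate]
  omega

theorem word_eq (A : Set ℕ) (t : ℕ) : ∃ w, word A t = w ++ [Sep t] := by
  have h := length_lt A t
  obtain ⟨m, hm⟩ : ∃ m, Len t - (cat (Sep t) (atoms A t)).length = m + 1 :=
    ⟨Len t - (cat (Sep t) (atoms A t)).length - 1, by omega⟩
  refine ⟨cat (Sep t) (atoms A t) ++ List.replicate m (Sep t), ?_⟩
  unfold word
  rw [hm, List.replicate_succ', List.append_assoc]

theorem mem_word (A : Set ℕ) (t : ℕ) (a : ℕ) (ha : a ∈ word A t) : a + 2 ≤ bs t := by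
  have hb := bs_ge t
  unfold word at ha
  rw [List.mem_append] at ha
  rcases ha with ha | ha
  · unfold cat at ha
    rw [List.mem_flatMap] at ha
    obtain ⟨C, hC, ha⟩ := ha
    rw [List.mem_append, List.mem_singleton] at ha
    rcases ha with ha | rfl
    · unfold atoms at hC
      rw [List.mem_flatMap] at hC
      obtain ⟨k, _, hC⟩ := hC
      split_ifs at hC
      · rw [List.mem_flatMap] at hC
        obtain ⟨D, hD, hC⟩ := hC
        rw [List.mem_replicate] at hC
        obtain ⟨_, rfl⟩ := hC
        unfold blocks at hD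
        rw [List.mem_map] at hD
        obtain ⟨f, _, rfl⟩ := hD
        rw [List.mem_ofFn] at ha
        obtain ⟨i, rfl⟩ := ha
        have := (f i).isLt
        omega
      · simp at hC
    · unfold Sep
      omega
  · rw [List.mem_replicate] at ha
    rw [ha.2]
    unfold Sep
    omega

open Classical in
/-- `1` if `k ∈ A`, else `0`. -/
noncomputable def dl (A : Set ℕ) (k : ℕ) : ℕ := if k ∈ A then 1 else 0

theorem occ_word (A : Set ℕ) (t : ℕ) (B : List ℕ) (hB : B ≠ []) (ht : B.length ≤ t)
    (hlt : ∀ x ∈ B, x < t) :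
    dl A B.length * bs t ^ (t - B.length) ≤ occ B (word A t) ∧
    (t + 1) * occ B (word A t) ≤
      (t + 1) * (dl A B.length * bs t ^ (t - B.length)) + bs t ^ (t - B.length) := by
  classical
  have hk1 : 1 ≤ B.length := by
    rcases Nat.eq_zero_or_pos B.length with h | h
    · exact absurd (List.eq_nil_of_length_eq_zero h) hB
    · exact h
  have hM : Sep t ∉ B := by
    intro h
    have h1 := hlt _ h
    have h2 := bs_ge t
    unfold Sep at h1
    omega
  have h1 : occ B (word A t) = ((atoms A t).map (occ B)).sum := by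
    unfold word
    rw [occ_cat B hB _ hM, occ_replicate B hB _ hM, add_zero]
  rw [h1, sum_atoms]
  set k := B.length with hk
  -- the term of index k
  have hterm : (if k ∈ A ∧ 1 ≤ k then bs t ^ (t - k) *
      ∑ f : Fin k → Fin t, occ B (List.ofFn fun i => (f i : ℕ)) else 0)
      = dl A k * bs t ^ (t - k) := by
    unfold dl
    by_cases hA : k ∈ A
    · rw [if_pos ⟨hA, hk1⟩, if_pos hA, one_mul]
      have h2 : ∑ f : Fin k → Fin t, occ B (List.ofFn fun i => (f i : ℕ)) = 1 := by
        have h3 : ∀ f : Fin k → Fin t, occ B (List.ofFn fun i => (f i : ℕ))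
            = if f = (fun i => ⟨B[(i : ℕ)]'(by rw [← hk]; exact i.isLt),
                hlt _ (List.getElem_mem _)⟩ : Fin k → Fin t) then 1 else 0 := by
          intro f
          rw [occ_same B _ hB (by rw [List.length_ofFn])]
          congr 1
          apply propext
          constructor
          · intro h
            funext i
            apply Fin.ext
            have h4 : (List.ofFn fun i => (f i : ℕ))[(i : ℕ)]'(by
                rw [List.length_ofFn]; exact i.isLt) = B[(i : ℕ)]'(by
                rw [← hk]; exact i.isLt) := by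
              simp only [h]
            rw [List.getElem_ofFn] at h4
            simpa using h4
          · intro h
            subst h
            apply List.ext_getElem
            · rw [List.length_ofFn]
            · intro i h5 h6
              rw [List.getElem_ofFn]
        rw [Finset.sum_congr rfl (fun f _ => h3 f), Finset.sum_ite_eq']
        simp
      rw [h2, mul_one]
    · rw [if_neg (fun h => hA h.1), if_neg hA, zero_mul]
  constructor
  · rw [← hterm]
    exact Finset.single_le_sum (f := fun k => if k ∈ A ∧ 1 ≤ k then bs t ^ (t - k) *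
      ∑ f : Fin k → Fin t, occ B (List.ofFn fun i => (f i : ℕ)) else 0)
      (fun _ _ => Nat.zero_le _) (Finset.mem_range.2 (by omega))
  · -- upper bound
    set X : ℕ := if k < t then bs t ^ (t - k - 1) * t ^ (t + 1) else 0 with hX
    have h2 : ∀ l ∈ Finset.range (t + 1), (if l ∈ A ∧ 1 ≤ l then bs t ^ (t - l) *
        ∑ f : Fin l → Fin t, occ B (List.ofFn fun i => (f i : ℕ)) else 0)
        ≤ (if l = k then dl A k * bs t ^ (t - k) else 0) + X := by
      intro l hl
      rw [Finset.mem_range] at hl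
      rcases lt_trichotomy l k with h | h | h
      · have h3 : ∑ f : Fin l → Fin t, occ B (List.ofFn fun i => (f i : ℕ)) = 0 := by
          apply Finset.sum_eq_zero
          intro f _
          apply occ_short
          rw [List.length_ofFn, ← hk]
          exact h
        rw [h3, mul_zero, ite_self]
        exact Nat.zero_le _
      · rw [h, if_pos rfl, hterm]
        exact Nat.le_add_right _ _
      · have hne : ¬ l = k := by omega
        have hkt : k < t := by omega
        rw [hX, if_pos hkt, if_neg hne, zero_add]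
        split_ifs with h4
        · have h5 : ∑ f : Fin l → Fin t, occ B (List.ofFn fun i => (f i : ℕ))
              ≤ t ^ l * t := by
            calc ∑ f : Fin l → Fin t, occ B (List.ofFn fun i => (f i : ℕ))
                ≤ ∑ _f : Fin l → Fin t, t := by
                  apply Finset.sum_le_sum
                  intro f _
                  refine (occ_le_length _ _).trans ?_
                  rw [List.length_ofFn]
                  omega
              _ = t ^ l * t := by rw [Finset.sum_const, card_fun, smul_eq_mul]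
          refine Nat.mul_le_mul (Nat.pow_le_pow_right (bs_pos t) (by omega)) (h5.trans ?_)
          rw [← pow_succ]
          exact Nat.pow_le_pow_right (by omega) (by omega)
        · exact Nat.zero_le _
    have h3 := Finset.sum_le_sum h2
    rw [Finset.sum_add_distrib, Finset.sum_ite_eq', if_pos (Finset.mem_range.2 (by omega)),
      Finset.sum_const, Finset.card_range, smul_eq_mul] at h3
    have h4 : (t + 1) * ((t + 1) * X) ≤ bs t ^ (t - k) := by
      rw [hX]
      split_ifs with h5
      · calc (t + 1) * ((t + 1) * (bs t ^ (t - k - 1) * t ^ (t + 1)))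
            = ((t + 1) ^ 2 * t ^ (t + 1)) * bs t ^ (t - k - 1) := by ring
          _ ≤ bs t * bs t ^ (t - k - 1) := Nat.mul_le_mul_right _ (bs_big t).le
          _ = bs t ^ (t - k) := by
              rw [← pow_succ']
              congr 1
              omega
      · simp
    calc (t + 1) * _ ≤ (t + 1) * (dl A k * bs t ^ (t - k) + (t + 1) * X) :=
          Nat.mul_le_mul_left _ h3
      _ = (t + 1) * (dl A k * bs t ^ (t - k)) + (t + 1) * ((t + 1) * X) := by ring
      _ ≤ _ := Nat.add_le_add_left h4 _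

/-! ### Stages -/

/-- The starting position of stage `t`; stage `t` consists of
`(t + 1) * (T t + Len (t + 1) + t + 1)` copies of the word of stage `t`. -/
def T : ℕ → ℕ
  | 0 => 0
  | t + 1 => T t + ((t + 1) * (T t + Len (t + 1) + t + 1)) * Len t

/-- The number of copies of the word in stage `t`. -/
def rho (t : ℕ) : ℕ := (t + 1) * (T t + Len (t + 1) + t + 1)

theorem T_succ (t : ℕ) : T (t + 1) = T t + rho t * Len t := rfl

theorem rho_pos (t : ℕ) : 0 < rho t := by
  unfold rho
  exact Nat.mul_pos (by omega) (by omega)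

theorem T_lt_succ (t : ℕ) : T t < T (t + 1) := by
  rw [T_succ]
  have := Nat.mul_pos (rho_pos t) (Len_pos t)
  omega

theorem T_mono : StrictMono T := strictMono_nat_of_lt_succ T_lt_succ

theorem le_T (t : ℕ) : t ≤ T t := T_mono.le_apply

/-- The stage containing position `n`. -/
def stage (n : ℕ) : ℕ := Nat.findGreatest (fun t => T t ≤ n) n

theorem T_stage_le (n : ℕ) : T (stage n) ≤ n :=
  Nat.findGreatest_spec (P := fun t => T t ≤ n) (m := 0) (Nat.zero_le _) (Nat.zero_le _)

theorem lt_T_stage (n : ℕ) : n < T (stage n + 1) := by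
  by_contra h
  push Not at h
  have h1 : stage n + 1 ≤ n := (le_T _).trans h
  exact Nat.findGreatest_is_greatest (P := fun t => T t ≤ n) (n := n) (k := stage n + 1)
    (Nat.lt_succ_self _) h1 h

theorem stage_eq {n t : ℕ} (h1 : T t ≤ n) (h2 : n < T (t + 1)) : stage n = t := by
  have h3 := T_stage_le n
  have h4 := lt_T_stage n
  have h5 : t < stage n + 1 := T_mono.lt_iff_lt.1 (lt_of_le_of_lt h1 h4)
  have h6 : stage n < t + 1 := T_mono.lt_iff_lt.1 (lt_of_le_of_lt h3 h2)
  omega

theorem stage_mono {m n : ℕ} (h : m ≤ n) : stage m ≤ stage n := by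
  have h1 : stage m < stage n + 1 :=
    T_mono.lt_iff_lt.1 (lt_of_le_of_lt (T_stage_le m) (lt_of_le_of_lt h (lt_T_stage n)))
  omega

theorem le_stage {t n : ℕ} (h : T t ≤ n) : t ≤ stage n := by
  have h1 : t < stage n + 1 := T_mono.lt_iff_lt.1 (lt_of_le_of_lt h (lt_T_stage n))
  omega

/-- The digits (indexed from `0`). -/
noncomputable def dg (A : Set ℕ) (n : ℕ) : ℕ :=
  (word A (stage n)).getD ((n - T (stage n)) % Len (stage n)) 0

/-- The bases (indexed from `0`). -/
def ba (n : ℕ) : ℕ := bs (stage n)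

theorem dg_add_two_le (A : Set ℕ) (n : ℕ) : dg A n + 2 ≤ ba n := by
  unfold dg ba
  have h1 : (n - T (stage n)) % Len (stage n) < (word A (stage n)).length := by
    rw [length_word]
    exact Nat.mod_lt _ (Len_pos _)
  rw [List.getD_eq_getElem _ _ h1]
  exact mem_word A _ _ (List.getElem_mem _)

theorem seg (A : Set ℕ) (t r : ℕ) (hr : r ≤ rho t) :
    (List.range' (T t) (r * Len t)).map (dg A) = (List.replicate r (word A t)).flatten := by
  induction r with
  | zero => simp
  | succ r ih =>
    have h1 : (r + 1) * Len t = r * Len t + Len t := by ring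
    rw [h1, ← List.range'_append_1, List.map_append, ih (by omega), List.replicate_succ',
      List.flatten_append]
    congr 1
    rw [List.flatten_cons, List.flatten_nil, List.append_nil]
    apply List.ext_getElem
    · rw [List.length_map, List.length_range', length_word]
    · intro i h2 h3
      rw [List.getElem_map, List.getElem_range'_1]
      rw [length_word] at h3
      have h4 : r * Len t + i < rho t * Len t := by
        calc r * Len t + i < r * Len t + Len t := by omega
          _ = (r + 1) * Len t := by ring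
          _ ≤ rho t * Len t := Nat.mul_le_mul_right _ hr
      have h5 : stage (T t + r * Len t + i) = t := by
        apply stage_eq
        · omega
        · rw [T_succ]; omega
      unfold dg
      rw [h5]
      have h6 : (T t + r * Len t + i - T t) % Len t = i := by
        have : T t + r * Len t + i - T t = i + Len t * r := by
          rw [Nat.add_assoc, Nat.add_sub_cancel_left, Nat.mul_comm]
          omega
        rw [this, Nat.add_mul_mod_self_left, Nat.mod_eq_of_lt h3]
      rw [h6, List.getD_eq_getElem]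

/-- Decomposition of the number of occurrences in the first `n` digits. -/
theorem occ_bounds (A : Set ℕ) (n u r p : ℕ) (hn : n = T (u + 1) + r * Len (u + 1) + p)
    (hr : r ≤ rho (u + 1)) (B : List ℕ) (hB : B ≠ []) (hlt : ∀ x ∈ B, x < u) :
    rho u * occ B (word A u) + r * occ B (word A (u + 1)) ≤
      occ B ((List.range' 0 n).map (dg A)) ∧
    occ B ((List.range' 0 n).map (dg A)) ≤
      T u + (rho u * occ B (word A u) + r * occ B (word A (u + 1)) + p) := by
  have hsep : ∀ v, u ≤ v → Sep v ∉ B := by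
    intro v hv h
    have h1 := hlt _ h
    have h2 := bs_ge v
    unfold Sep at h1
    omega
  have h1 : List.range' 0 n = List.range' 0 (T u) ++ (List.range' (T u) (rho u * Len u) ++
      (List.range' (T (u + 1)) (r * Len (u + 1)) ++
        List.range' (T (u + 1) + r * Len (u + 1)) p)) := by
    rw [List.range'_append_1]
    have h2 : List.range' (T (u + 1)) (r * Len (u + 1) + p)
        = List.range' (T u + rho u * Len u) (r * Len (u + 1) + p) := by rw [T_succ]
    rw [h2, List.range'_append_1]
    have h3 : List.range' (T u) (rho u * Len u + (r * Len (u + 1) + p))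
        = List.range' (0 + T u) (rho u * Len u + (r * Len (u + 1) + p)) := by rw [Nat.zero_add]
    rw [h3, List.range'_append_1, hn, T_succ]
    congr 1
    ring
  obtain ⟨w0, hw0⟩ := word_eq A u
  obtain ⟨w1, hw1⟩ := word_eq A (u + 1)
  have h4 : occ B ((List.range' (T u) (rho u * Len u) ++
      (List.range' (T (u + 1)) (r * Len (u + 1)) ++
        List.range' (T (u + 1) + r * Len (u + 1)) p)).map (dg A))
      = rho u * occ B (word A u) + (r * occ B (word A (u + 1)) +
        occ B ((List.range' (T (u + 1) + r * Len (u + 1)) p).map (dg A))) := by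
    rw [List.map_append, List.map_append, seg A u _ le_rfl, seg A (u + 1) r hr, hw0, hw1,
      occ_rep B hB _ (hsep u le_rfl), occ_rep B hB _ (hsep (u + 1) (by omega))]
  have h5 : occ B ((List.range' (T (u + 1) + r * Len (u + 1)) p).map (dg A)) ≤ p := by
    refine (occ_le_length _ _).trans ?_
    rw [List.length_map, List.length_range']
  rw [h1, List.map_append]
  constructor
  · refine le_trans ?_ (le_occ_append _ _ _)
    rw [h4]
    omega
  · refine (occ_append_le _ _ _).trans ?_
    rw [h4, List.length_map, List.length_range']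
    omega

/-! ### The normalising sums -/

/-- The `m`-th term of the normalising sum of order `k`. -/
noncomputable def W (k m : ℕ) : ℝ := ∏ s ∈ Finset.range k, ((ba (m + s) : ℝ))⁻¹

theorem ba_inv_le_one (m : ℕ) : ((ba m : ℝ))⁻¹ ≤ 1 := by
  apply inv_le_one_of_one_le₀
  exact_mod_cast bs_pos _

theorem W_nonneg (k m : ℕ) : 0 ≤ W k m :=
  Finset.prod_nonneg fun _ _ => inv_nonneg.2 (Nat.cast_nonneg _)

theorem W_le_one (k m : ℕ) : W k m ≤ 1 :=
  Finset.prod_le_one (fun _ _ => inv_nonneg.2 (Nat.cast_nonneg _)) fun _ _ => ba_inv_le_one _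

theorem W_le (k m t : ℕ) (h : T t ≤ m) : W k m ≤ ((bs t : ℝ)⁻¹) ^ k := by
  unfold W
  calc ∏ s ∈ Finset.range k, ((ba (m + s) : ℝ))⁻¹
      ≤ ∏ _s ∈ Finset.range k, ((bs t : ℝ))⁻¹ := by
        apply Finset.prod_le_prod
        · intro _ _
          exact inv_nonneg.2 (Nat.cast_nonneg _)
        · intro s _
          apply inv_anti₀
          · exact_mod_cast bs_pos t
          · have h1 : t ≤ stage (m + s) := le_stage (by omega)
            exact_mod_cast bs_mono h1
    _ = _ := by rw [Finset.prod_const, Finset.card_range]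

theorem W_eq (k m t : ℕ) (h : T t ≤ m) (h2 : m + k ≤ T (t + 1)) :
    W k m = ((bs t : ℝ)⁻¹) ^ k := by
  unfold W
  have h3 : ∀ s ∈ Finset.range k, ((ba (m + s) : ℝ))⁻¹ = ((bs t : ℝ))⁻¹ := by
    intro s hs
    rw [Finset.mem_range] at hs
    unfold ba
    rw [stage_eq (n := m + s) (t := t) (by omega) (by omega)]
  rw [Finset.prod_congr rfl h3, Finset.prod_const, Finset.card_range]

theorem W_sum_le (k t a c : ℕ) (ha : T t ≤ a) :
    ∑ m ∈ Finset.Ico a c, W k m ≤ ((c - a : ℕ) : ℝ) * ((bs t : ℝ)⁻¹) ^ k := by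
  calc ∑ m ∈ Finset.Ico a c, W k m ≤ ∑ _m ∈ Finset.Ico a c, ((bs t : ℝ)⁻¹) ^ k := by
        apply Finset.sum_le_sum
        intro m hm
        rw [Finset.mem_Ico] at hm
        exact W_le k m t (by omega)
    _ = _ := by rw [Finset.sum_const, Nat.card_Ico, nsmul_eq_mul]

theorem W_sum_ge (k t a c : ℕ) (ha : T t ≤ a) (hc : c ≤ T (t + 1)) :
    ((c - a : ℕ) : ℝ) * ((bs t : ℝ)⁻¹) ^ k - k ≤ ∑ m ∈ Finset.Ico a c, W k m := by
  classical
  have hb0 : 0 ≤ ((bs t : ℝ)⁻¹) ^ k := pow_nonneg (inv_nonneg.2 (Nat.cast_nonneg _)) _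
  have hb1 : ((bs t : ℝ)⁻¹) ^ k ≤ 1 := by
    apply pow_le_one₀ (inv_nonneg.2 (Nat.cast_nonneg _))
    apply inv_le_one_of_one_le₀
    exact_mod_cast bs_pos t
  have h1 : ∀ m ∈ Finset.Ico a c, ((bs t : ℝ)⁻¹) ^ k - (if T (t + 1) < m + k then 1 else 0)
      ≤ W k m := by
    intro m hm
    rw [Finset.mem_Ico] at hm
    split_ifs with h
    · have := W_nonneg k m
      linarith
    · rw [W_eq k m t (by omega) (by omega)]
      linarith
  have h2 := Finset.sum_le_sum h1
  rw [Finset.sum_sub_distrib, Finset.sum_const, Nat.card_Ico, nsmul_eq_mul] at h2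
  have h3 : ∑ m ∈ Finset.Ico a c, (if T (t + 1) < m + k then (1 : ℝ) else 0) ≤ k := by
    rw [← Finset.sum_filter, Finset.sum_const, nsmul_eq_mul, mul_one]
    have h4 : (Finset.Ico a c).filter (fun m => T (t + 1) < m + k)
        ⊆ Finset.Ico (T (t + 1) + 1 - k) (T (t + 1) + 1) := by
      intro m hm
      rw [Finset.mem_filter, Finset.mem_Ico] at hm
      rw [Finset.mem_Ico]
      omega
    have h5 := Finset.card_le_card h4
    rw [Nat.card_Ico] at h5
    have h6 : ((Finset.Ico a c).filter (fun m => T (t + 1) < m + k)).card ≤ k := by omega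
    exact_mod_cast h6
  linarith

/-! ### Main estimates -/

/-- The number of complete words of its stage before position `n`. -/
def rr (n : ℕ) : ℕ := (n - T (stage n)) / Len (stage n)

/-- The main term. -/
noncomputable def Z (k n : ℕ) : ℝ :=
  (rho (stage n - 1) : ℝ) * (Len (stage n - 1) * ((bs (stage n - 1) : ℝ)⁻¹) ^ k) +
    rr n * (Len (stage n) * ((bs (stage n) : ℝ)⁻¹) ^ k)

theorem g_eq (k u : ℕ) (h : k ≤ u) :
    (Len u : ℝ) * ((bs u : ℝ)⁻¹) ^ k = ((bs u ^ (u - k) : ℕ) : ℝ) := by
  have hb : (bs u : ℝ) ≠ 0 := by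
    have := bs_pos u
    positivity
  unfold Len
  have h1 : bs u ^ u = bs u ^ (u - k) * bs u ^ k := by
    rw [← pow_add]
    congr 1
    omega
  rw [h1]
  push_cast
  rw [mul_assoc, ← mul_pow, mul_inv_cancel₀ hb, one_pow, mul_one]

theorem rr_spec (n : ℕ) : ∃ p, n = T (stage n) + rr n * Len (stage n) + p ∧
    p < Len (stage n) ∧ rr n ≤ rho (stage n) := by
  have h1 := T_stage_le n
  have h2 := lt_T_stage n
  refine ⟨(n - T (stage n)) % Len (stage n), ?_, Nat.mod_lt _ (Len_pos _), ?_⟩
  · have h3 := Nat.div_add_mod (n - T (stage n)) (Len (stage n))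
    unfold rr
    rw [Nat.mul_comm] at h3
    omega
  · unfold rr
    rw [T_succ] at h2
    have h3 : n - T (stage n) < rho (stage n) * Len (stage n) := by omega
    have h4 := Nat.div_lt_of_lt_mul (by rw [Nat.mul_comm] at h3; exact h3)
    omega

theorem Z_ge (k n u : ℕ) (hu : stage n = u + 1) (hk : k + 1 ≤ u + 1) :
    (rho u : ℝ) ≤ Z k n := by
  unfold Z
  rw [hu, Nat.add_sub_cancel]
  have h1 := g_eq k u (by omega)
  rw [h1]
  have h2 : (1 : ℝ) ≤ ((bs u ^ (u - k) : ℕ) : ℝ) := by
    exact_mod_cast Nat.pow_pos (bs_pos u)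
  have h3 : (0 : ℝ) ≤ rr n * (Len (u + 1) * ((bs (u + 1) : ℝ)⁻¹) ^ k) := by positivity
  have h4 : (rho u : ℝ) * 1 ≤ rho u * ((bs u ^ (u - k) : ℕ) : ℝ) :=
    mul_le_mul_of_nonneg_left h2 (Nat.cast_nonneg _)
  linarith

theorem rho_real (u : ℕ) :
    ((u : ℝ) + 1) * ((T u : ℝ) + Len (u + 1) + u + 1) = rho u := by
  unfold rho
  push_cast
  ring

theorem main1 (A : Set ℕ) (B : List ℕ) (hB : B ≠ []) (n u : ℕ) (hu : stage n = u + 1)
    (hk : B.length ≤ u) (hlt : ∀ x ∈ B, x < u) :
    |(occ B ((List.range' 0 n).map (dg A)) : ℝ) - dl A B.length * Z B.length n|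
      ≤ 2 / ((u : ℝ) + 1) * Z B.length n := by
  obtain ⟨p, hn, hp, hr⟩ := rr_spec n
  rw [hu] at hn hp hr
  obtain ⟨hlo, hhi⟩ := occ_bounds A n u (rr n) p hn hr B hB hlt
  obtain ⟨a1, a2⟩ := occ_word A u B hB hk hlt
  obtain ⟨b1, b2⟩ := occ_word A (u + 1) B hB (by omega) (fun x hx => (hlt x hx).trans (by omega))
  have hZ := Z_ge B.length n u hu (by omega)
  set k := B.length with hkk
  have hZe : Z k n = rho u * ((bs u ^ (u - k) : ℕ) : ℝ) +
      rr n * ((bs (u + 1) ^ (u + 1 - k) : ℕ) : ℝ) := by
    unfold Z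
    rw [hu, Nat.add_sub_cancel, g_eq k u hk, g_eq k (u + 1) (by omega)]
  set cu := occ B (word A u) with hcu
  set cv := occ B (word A (u + 1)) with hcv
  set gu := bs u ^ (u - k) with hgu
  set gv := bs (u + 1) ^ (u + 1 - k) with hgv
  set O := occ B ((List.range' 0 n).map (dg A)) with hO
  have hu1 : (0 : ℝ) < (u : ℝ) + 1 := by positivity
  have r1 : (dl A k : ℝ) * gu ≤ cu := by exact_mod_cast a1
  have r2 : ((u : ℝ) + 1) * cu ≤ (u + 1) * (dl A k * gu) + gu := by exact_mod_cast a2
  have r3 : (dl A k : ℝ) * gv ≤ cv := by exact_mod_cast b1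
  have r4 : ((u : ℝ) + 1 + 1) * cv ≤ (u + 1 + 1) * (dl A k * gv) + gv := by exact_mod_cast b2
  have r5 : (rho u : ℝ) * cu + rr n * cv ≤ O := by exact_mod_cast hlo
  have r6 : (O : ℝ) ≤ T u + (rho u * cu + rr n * cv + p) := by exact_mod_cast hhi
  have r7 : (p : ℝ) ≤ Len (u + 1) := by exact_mod_cast hp.le
  have r8 := rho_real u
  have hrho : (0 : ℝ) ≤ rho u := Nat.cast_nonneg _
  have hrr : (0 : ℝ) ≤ rr n := Nat.cast_nonneg _
  have hT : (0 : ℝ) ≤ T u := Nat.cast_nonneg _
  have hL : (0 : ℝ) ≤ Len (u + 1) := Nat.cast_nonneg _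
  have hu0 : (0 : ℝ) ≤ u := Nat.cast_nonneg _
  have hgv0 : (0 : ℝ) ≤ gv := Nat.cast_nonneg _
  have hgu0 : (0 : ℝ) ≤ gu := Nat.cast_nonneg _
  have lower : (dl A k : ℝ) * Z k n ≤ O := by
    rw [hZe]
    calc (dl A k : ℝ) * (rho u * gu + rr n * gv)
        = rho u * (dl A k * gu) + rr n * (dl A k * gv) := by ring
      _ ≤ rho u * cu + rr n * cv :=
          add_le_add (mul_le_mul_of_nonneg_left r1 hrho) (mul_le_mul_of_nonneg_left r3 hrr)
      _ ≤ O := r5
  have s1 : ((u : ℝ) + 1) * (rho u * cu) ≤ (u + 1) * (rho u * (dl A k * gu)) + rho u * gu := by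
    calc ((u : ℝ) + 1) * (rho u * cu) = rho u * ((u + 1) * cu) := by ring
      _ ≤ rho u * ((u + 1) * (dl A k * gu) + gu) := mul_le_mul_of_nonneg_left r2 hrho
      _ = _ := by ring
  have s2 : ((u : ℝ) + 1) * (rr n * cv) ≤ (u + 1) * (rr n * (dl A k * gv)) + rr n * gv := by
    have s3 : ((u : ℝ) + 1) * cv ≤ (u + 1) * (dl A k * gv) + gv := by
      have s4 : ((u : ℝ) + 1 + 1) * (cv - dl A k * gv) ≤ gv := by linarith
      have s5 : 0 ≤ (cv : ℝ) - dl A k * gv := by linarith
      have s6 : ((u : ℝ) + 1) * (cv - dl A k * gv) ≤ ((u : ℝ) + 1 + 1) * (cv - dl A k * gv) :=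
        mul_le_mul_of_nonneg_right (by linarith) s5
      linarith
    calc ((u : ℝ) + 1) * (rr n * cv) = rr n * ((u + 1) * cv) := by ring
      _ ≤ rr n * ((u + 1) * (dl A k * gv) + gv) := mul_le_mul_of_nonneg_left s3 hrr
      _ = _ := by ring
  have s7 : ((u : ℝ) + 1) * (T u + p) ≤ Z k n := by
    calc ((u : ℝ) + 1) * (T u + p) ≤ (u + 1) * ((T u : ℝ) + Len (u + 1) + u + 1) :=
          mul_le_mul_of_nonneg_left (by linarith) hu1.le
      _ = rho u := r8
      _ ≤ Z k n := hZ
  have s8 : ((u : ℝ) + 1) * (O - dl A k * Z k n) ≤ 2 * Z k n := by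
    have s9 : ((u : ℝ) + 1) * O ≤ (u + 1) * (T u + (rho u * cu + rr n * cv + p)) :=
      mul_le_mul_of_nonneg_left r6 hu1.le
    have s10 : ((u : ℝ) + 1) * (dl A k * Z k n)
        = (u + 1) * (rho u * (dl A k * gu)) + (u + 1) * (rr n * (dl A k * gv)) := by
      rw [hZe]; ring
    have s11 : Z k n = rho u * gu + rr n * gv := hZe
    have s12 : ((u : ℝ) + 1) * (T u + (rho u * cu + rr n * cv + p))
        = (u + 1) * (T u + p) + (u + 1) * (rho u * cu) + (u + 1) * (rr n * cv) := by ring
    linarith
  rw [abs_le]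
  have s13 : 0 ≤ 2 / ((u : ℝ) + 1) * Z k n := by
    have : (0 : ℝ) ≤ Z k n := le_trans hrho hZ
    positivity
  constructor
  · linarith
  · rw [div_mul_eq_mul_div, le_div_iff₀ hu1]
    linarith

theorem main2 (k n u : ℕ) (hu : stage n = u + 1) (hk : k ≤ u) :
    |∑ m ∈ Finset.range n, W k m - Z k n| ≤ (2 * k + 1) / ((u : ℝ) + 1) * Z k n := by
  obtain ⟨p, hn, hp, hr⟩ := rr_spec n
  rw [hu] at hn hp hr
  have hZ := Z_ge k n u hu (by omega)
  have hu1 : (0 : ℝ) < (u : ℝ) + 1 := by positivity
  have hT1 : T u ≤ T (u + 1) := (T_lt_succ u).le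
  have hTn : T (u + 1) ≤ n := by rw [← hu]; exact T_stage_le n
  have hnT : n ≤ T (u + 1 + 1) := by rw [← hu]; exact (lt_T_stage n).le
  have hsplit : ∑ m ∈ Finset.range n, W k m
      = ∑ m ∈ Finset.Ico 0 (T u), W k m + ∑ m ∈ Finset.Ico (T u) (T (u + 1)), W k m +
        ∑ m ∈ Finset.Ico (T (u + 1)) n, W k m := by
    rw [Finset.sum_Ico_consecutive _ (Nat.zero_le _) hT1,
      Finset.sum_Ico_consecutive _ (Nat.zero_le _) hTn, Finset.range_eq_Ico]
  have e1 : 0 ≤ ∑ m ∈ Finset.Ico 0 (T u), W k m := Finset.sum_nonneg fun _ _ => W_nonneg _ _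
  have e2 : ∑ m ∈ Finset.Ico 0 (T u), W k m ≤ T u := by
    calc ∑ m ∈ Finset.Ico 0 (T u), W k m ≤ ∑ _m ∈ Finset.Ico 0 (T u), (1 : ℝ) :=
          Finset.sum_le_sum fun _ _ => W_le_one _ _
      _ = T u := by rw [Finset.sum_const, Nat.card_Ico, nsmul_eq_mul, mul_one, Nat.sub_zero]
  have e3 := W_sum_le k u (T u) (T (u + 1)) le_rfl
  have e4 := W_sum_ge k u (T u) (T (u + 1)) le_rfl le_rfl
  have e5 := W_sum_le k (u + 1) (T (u + 1)) n le_rfl
  have e6 := W_sum_ge k (u + 1) (T (u + 1)) n le_rfl hnT
  have l1 : T (u + 1) - T u = rho u * Len u := by rw [T_succ]; omega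
  have l2 : n - T (u + 1) = rr n * Len (u + 1) + p := by omega
  rw [l1] at e3 e4
  rw [l2] at e5 e6
  push_cast at e3 e4 e5 e6
  have hZe : Z k n = rho u * Len u * ((bs u : ℝ)⁻¹) ^ k +
      rr n * Len (u + 1) * ((bs (u + 1) : ℝ)⁻¹) ^ k := by
    unfold Z
    rw [hu, Nat.add_sub_cancel]
    ring
  have hp0 : (0 : ℝ) ≤ p * ((bs (u + 1) : ℝ)⁻¹) ^ k := by positivity
  have hp1 : (p : ℝ) * ((bs (u + 1) : ℝ)⁻¹) ^ k ≤ Len (u + 1) := by
    have h1 : ((bs (u + 1) : ℝ)⁻¹) ^ k ≤ 1 := by
      apply pow_le_one₀ (inv_nonneg.2 (Nat.cast_nonneg _))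
      apply inv_le_one_of_one_le₀
      exact_mod_cast bs_pos (u + 1)
    calc (p : ℝ) * ((bs (u + 1) : ℝ)⁻¹) ^ k ≤ p * 1 :=
          mul_le_mul_of_nonneg_left h1 (Nat.cast_nonneg _)
      _ ≤ Len (u + 1) := by rw [mul_one]; exact_mod_cast hp.le
  have r8 := rho_real u
  have hT : (0 : ℝ) ≤ T u := Nat.cast_nonneg _
  have hL : (0 : ℝ) ≤ Len (u + 1) := Nat.cast_nonneg _
  have hu0 : (0 : ℝ) ≤ u := Nat.cast_nonneg _
  have hk0 : (0 : ℝ) ≤ k := Nat.cast_nonneg _
  have s7 : ((u : ℝ) + 1) * (T u + Len (u + 1)) ≤ Z k n := by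
    calc ((u : ℝ) + 1) * (T u + Len (u + 1)) ≤ (u + 1) * ((T u : ℝ) + Len (u + 1) + u + 1) :=
          mul_le_mul_of_nonneg_left (by linarith) hu1.le
      _ = rho u := r8
      _ ≤ Z k n := hZ
  have s8 : ((u : ℝ) + 1) * 1 ≤ Z k n := by
    calc ((u : ℝ) + 1) * 1 ≤ (u + 1) * ((T u : ℝ) + Len (u + 1) + u + 1) :=
          mul_le_mul_of_nonneg_left (by linarith) hu1.le
      _ = rho u := r8
      _ ≤ Z k n := hZ
  have hZ0 : 0 ≤ Z k n := le_trans (Nat.cast_nonneg _) hZ
  have s9 : (2 * k : ℝ) * (((u : ℝ) + 1) * 1) ≤ 2 * k * Z k n :=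
    mul_le_mul_of_nonneg_left s8 (by positivity)
  rw [div_mul_eq_mul_div, le_div_iff₀ hu1, hsplit]
  have hlow : -(2 * (k : ℝ)) ≤ ∑ m ∈ Finset.Ico 0 (T u), W k m +
      ∑ m ∈ Finset.Ico (T u) (T (u + 1)), W k m +
        ∑ m ∈ Finset.Ico (T (u + 1)) n, W k m - Z k n := by
    rw [hZe]
    linarith
  have hupp : ∑ m ∈ Finset.Ico 0 (T u), W k m +
      ∑ m ∈ Finset.Ico (T u) (T (u + 1)), W k m +
        ∑ m ∈ Finset.Ico (T (u + 1)) n, W k m - Z k n ≤ T u + Len (u + 1) := by
    rw [hZe]
    linarith
  have habs : |∑ m ∈ Finset.Ico 0 (T u), W k m +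
      ∑ m ∈ Finset.Ico (T u) (T (u + 1)), W k m +
        ∑ m ∈ Finset.Ico (T (u + 1)) n, W k m - Z k n| ≤ 2 * k + (T u + Len (u + 1)) := by
    rw [abs_le]
    constructor
    · linarith
    · linarith
  calc _ ≤ (2 * k + ((T u : ℝ) + Len (u + 1))) * (u + 1) :=
        mul_le_mul_of_nonneg_right habs hu1.le
    _ = 2 * k * ((u + 1) * 1) + (u + 1) * (T u + Len (u + 1)) := by ring
    _ ≤ 2 * k * Z k n + Z k n := add_le_add s9 s7
    _ = (2 * k + 1) * Z k n := by ring

theorem stage_tendsto : Tendsto stage atTop atTop := by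
  rw [tendsto_atTop_atTop]
  intro b
  exact ⟨T b, fun n hn => le_stage hn⟩

theorem inv_stage_tendsto (c : ℝ) :
    Tendsto (fun n : ℕ => c / (stage n : ℝ)) atTop (nhds 0) := by
  have h1 : Tendsto (fun n : ℕ => (stage n : ℝ)) atTop atTop :=
    tendsto_natCast_atTop_atTop.comp stage_tendsto
  exact h1.const_div_atTop c

theorem Z_pos_big (k n u : ℕ) (hu : stage n = u + 1) (hk : k ≤ u) :
    (stage n : ℝ) ≤ Z k n := by
  have hZ := Z_ge k n u hu (by omega)
  refine le_trans ?_ hZ
  rw [hu, ← rho_real u]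
  have hT : (0 : ℝ) ≤ T u := Nat.cast_nonneg _
  have hL : (0 : ℝ) ≤ Len (u + 1) := Nat.cast_nonneg _
  have hu0 : (0 : ℝ) ≤ u := Nat.cast_nonneg _
  push_cast
  calc (u : ℝ) + 1 = (u + 1) * 1 := by ring
    _ ≤ _ := mul_le_mul_of_nonneg_left (by linarith) (by linarith)

theorem eventually_stage (K : ℕ) : ∀ᶠ n in atTop, ∃ u, stage n = u + 1 ∧ K ≤ u := by
  filter_upwards [stage_tendsto.eventually_ge_atTop (K + 1)] with n hn
  exact ⟨stage n - 1, by omega, by omega⟩

theorem Z_tendsto (k : ℕ) : Tendsto (Z k) atTop atTop := by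
  have h1 : Tendsto (fun n : ℕ => (stage n : ℝ)) atTop atTop :=
    tendsto_natCast_atTop_atTop.comp stage_tendsto
  refine tendsto_atTop_mono' _ ?_ h1
  filter_upwards [eventually_stage k] with n hn
  obtain ⟨u, hu, hk⟩ := hn
  exact Z_pos_big k n u hu hk

theorem lim_occ (A : Set ℕ) (B : List ℕ) (hB : B ≠ []) :
    Tendsto (fun n => (occ B ((List.range' 0 n).map (dg A)) : ℝ) / Z B.length n) atTop
      (nhds (dl A B.length)) := by
  rw [tendsto_iff_norm_sub_tendsto_zero]
  refine squeeze_zero' (Eventually.of_forall fun _ => norm_nonneg _) ?_ (inv_stage_tendsto 2)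
  filter_upwards [eventually_stage (B.length + B.sum + 1)] with n hn
  obtain ⟨u, hu, hk⟩ := hn
  have h1 := main1 A B hB n u hu (by omega) (fun x hx => by
    have := List.single_le_sum (by simp) x hx
    omega)
  have h2 := Z_pos_big B.length n u hu (by omega)
  have h3 : (0 : ℝ) < stage n := by rw [hu]; positivity
  have h4 : 0 < Z B.length n := lt_of_lt_of_le h3 h2
  rw [Real.norm_eq_abs, div_sub' h4.ne', abs_div, abs_of_pos h4, div_le_iff₀ h4,
    mul_comm (Z B.length n)]
  have h5 : (stage n : ℝ) = u + 1 := by rw [hu]; push_cast; ring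
  rw [h5]
  exact h1

theorem lim_W (k : ℕ) :
    Tendsto (fun n => (∑ m ∈ Finset.range n, W k m) / Z k n) atTop (nhds 1) := by
  rw [tendsto_iff_norm_sub_tendsto_zero]
  refine squeeze_zero' (Eventually.of_forall fun _ => norm_nonneg _) ?_
    (inv_stage_tendsto (2 * k + 1))
  filter_upwards [eventually_stage k] with n hn
  obtain ⟨u, hu, hk⟩ := hn
  have h1 := main2 k n u hu hk
  have h2 := Z_pos_big k n u hu hk
  have h3 : (0 : ℝ) < stage n := by rw [hu]; positivity
  have h4 : 0 < Z k n := lt_of_lt_of_le h3 h2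
  rw [Real.norm_eq_abs, div_sub_one h4.ne', abs_div, abs_of_pos h4, div_le_iff₀ h4]
  have h5 : (stage n : ℝ) = u + 1 := by rw [hu]; push_cast; ring
  rw [h5]
  exact h1

theorem W_sum_tendsto (k : ℕ) :
    Tendsto (fun n => ∑ m ∈ Finset.range n, W k m) atTop atTop := by
  have h1 := (lim_W k).pos_mul_atTop one_pos (Z_tendsto k)
  refine h1.congr' ?_
  filter_upwards [(Z_tendsto k).eventually_gt_atTop 0] with n hn
  rw [div_mul_cancel₀ _ hn.ne']

/-- The ratio with the index shift. -/
theorem lim_ratio (A : Set ℕ) (B : List ℕ) (hB : B ≠ []) :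
    Tendsto (fun n => (occ B ((List.range' 0 (n + (B.length - 1))).map (dg A)) : ℝ) /
      ∑ m ∈ Finset.range n, W B.length m) atTop (nhds (dl A B.length)) := by
  have ha := (tendsto_add_atTop_iff_nat (f := fun n =>
    (occ B ((List.range' 0 n).map (dg A)) : ℝ) / Z B.length n) (B.length - 1)).2
      (lim_occ A B hB)
  have hc := (tendsto_add_atTop_iff_nat (f := fun n =>
    (∑ m ∈ Finset.range n, W B.length m) / Z B.length n) (B.length - 1)).2 (lim_W B.length)
  have hz := (tendsto_add_atTop_iff_nat (f := fun n => Z B.length n) (B.length - 1)).2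
    (Z_tendsto B.length)
  -- the difference of the two normalising sums
  have hd : Tendsto (fun n => (∑ m ∈ Finset.Ico n (n + (B.length - 1)), W B.length m) /
      Z B.length (n + (B.length - 1))) atTop (nhds 0) := by
    have hq : Tendsto (fun n => ((B.length : ℝ)) / Z B.length (n + (B.length - 1))) atTop
        (nhds 0) := hz.const_div_atTop _
    refine squeeze_zero' ?_ ?_ hq
    · filter_upwards [hz.eventually_gt_atTop 0] with n hn
      exact div_nonneg (Finset.sum_nonneg fun _ _ => W_nonneg _ _) hn.le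
    · filter_upwards [hz.eventually_gt_atTop 0] with n hn
      apply div_le_div_of_nonneg_right _ hn.le
      calc ∑ m ∈ Finset.Ico n (n + (B.length - 1)), W B.length m
          ≤ ∑ _m ∈ Finset.Ico n (n + (B.length - 1)), (1 : ℝ) :=
            Finset.sum_le_sum fun _ _ => W_le_one _ _
        _ = ((B.length - 1 : ℕ) : ℝ) := by
            rw [Finset.sum_const, Nat.card_Ico, nsmul_eq_mul, mul_one, Nat.add_sub_cancel_left]
        _ ≤ B.length := by exact_mod_cast Nat.sub_le _ _
  have he : Tendsto (fun n => (∑ m ∈ Finset.range n, W B.length m) /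
      Z B.length (n + (B.length - 1))) atTop (nhds 1) := by
    have h1 := hc.sub hd
    rw [sub_zero] at h1
    refine h1.congr ?_
    intro n
    rw [← sub_div]
    congr 1
    rw [Finset.range_eq_Ico, Finset.range_eq_Ico,
      ← Finset.sum_Ico_consecutive _ (Nat.zero_le n) (Nat.le_add_right n (B.length - 1))]
    ring
  have h2 := ha.div he one_ne_zero
  rw [div_one] at h2
  refine h2.congr' ?_
  filter_upwards [hz.eventually_gt_atTop 0] with n hn
  rw [Pi.div_apply, div_div_div_cancel_right₀ hn.ne']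

/-! ### Counting positions -/

theorem prefix_iff (e : ℕ → ℕ) (B : List ℕ) (a m : ℕ) :
    B <+: (List.range' a m).map e ↔
      B.length ≤ m ∧ (List.range' a B.length).map e = B := by
  constructor
  · intro h
    have h1 : B.length ≤ m := by
      have := h.length_le
      rwa [List.length_map, List.length_range'] at this
    refine ⟨h1, ?_⟩
    have h2 : (List.range' a B.length).map e <+: (List.range' a m).map e := by
      refine ⟨(List.range' (a + B.length) (m - B.length)).map e, ?_⟩
      rw [← List.map_append, List.range'_append_1]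
      congr 2
      omega
    have h3 := List.prefix_of_prefix_length_le h h2 (by
      rw [List.length_map, List.length_range'])
    exact (h3.eq_of_length (by rw [List.length_map, List.length_range'])).symm
  · rintro ⟨h1, h2⟩
    refine ⟨(List.range' (a + B.length) (m - B.length)).map e, ?_⟩
    conv_lhs => rw [← h2]
    rw [List.length_map, List.length_range', ← List.map_append, List.range'_append_1]
    congr 2
    omega

theorem occ_range' (e : ℕ → ℕ) (B : List ℕ) (a len : ℕ) :
    occ B ((List.range' a len).map e) = ∑ i ∈ Finset.range len,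
      if (i + B.length ≤ len ∧ (List.range' (a + i) B.length).map e = B) then 1 else 0 := by
  induction len generalizing a with
  | zero => rfl
  | succ len ih =>
    rw [Finset.sum_range_succ', List.range'_succ, List.map_cons, occ_cons, ih (a + 1),
      Nat.add_comm]
    congr 1
    · apply Finset.sum_congr rfl
      intro i _
      have h1 : a + 1 + i = a + (i + 1) := by omega
      have h2 : (i + B.length ≤ len) ↔ (i + 1 + B.length ≤ len + 1) := by omega
      rw [h1]
      exact if_congr (and_congr h2 Iff.rfl) rfl rfl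
    · have h1 : e a :: (List.range' (a + 1) len).map e = (List.range' a (len + 1)).map e := by
        rw [List.range'_succ, List.map_cons]
      rw [h1]
      have h2 := prefix_iff e B a (len + 1)
      simp only [Nat.zero_add, Nat.add_zero]
      by_cases h : B <+: (List.range' a (len + 1)).map e
      · rw [if_pos h, if_pos (h2.1 h)]
      · rw [if_neg h, if_neg (fun h' => h (h2.2 h'))]

theorem occurrences_eq (e : ℕ → ℕ) {k : ℕ} (hk : 1 ≤ k) (B : Fin k → ℕ) (n : ℕ) :
    occurrences (fun i => e (i - 1)) B n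
      = occ (List.ofFn B) ((List.range' 0 (n + ((List.ofFn B).length - 1))).map e) := by
  classical
  rw [occ_range', List.length_ofFn, ← Finset.card_filter]
  unfold occurrences
  refine Finset.card_bij' (fun i _ => i - 1) (fun i _ => i + 1) ?h1 ?h2 ?h3 ?h4
  case h1 =>
    intro i hi
    rw [Finset.mem_filter, Finset.mem_Icc] at hi
    rw [Finset.mem_filter, Finset.mem_range]
    refine ⟨by omega, by omega, ?_⟩
    apply List.ext_getElem
    · rw [List.length_map, List.length_range', List.length_ofFn]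
    · intro s h1 h2
      rw [List.length_ofFn] at h2
      rw [List.getElem_map, List.getElem_range'_1, List.getElem_ofFn]
      have h3 := hi.2 ⟨s, h2⟩
      dsimp only at h3
      rw [← h3]
      congr 1
      omega
  case h2 =>
    intro i hi
    rw [Finset.mem_filter, Finset.mem_range] at hi
    rw [Finset.mem_filter, Finset.mem_Icc]
    refine ⟨by omega, ?_⟩
    intro s
    have h1 := hi.2.2
    have h2 : ((List.range' (0 + i) k).map e)[(s : ℕ)]'(by
        rw [List.length_map, List.length_range']; exact s.isLt)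
        = (List.ofFn B)[(s : ℕ)]'(by rw [List.length_ofFn]; exact s.isLt) := by
      simp only [h1]
    rw [List.getElem_map, List.getElem_range'_1, List.getElem_ofFn] at h2
    dsimp only
    rw [← h2]
    congr 1
    omega
  case h3 =>
    intro i hi
    rw [Finset.mem_filter, Finset.mem_Icc] at hi
    omega
  case h4 =>
    intro i _
    omega

theorem Qsum_eq (k n : ℕ) :
    Qsum (fun i => ba (i - 1)) k n = ∑ m ∈ Finset.range n, W k m := by
  have h1 : Finset.Icc 1 n = Finset.Ico 1 (n + 1) := by
    ext i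
    rw [Finset.mem_Icc, Finset.mem_Ico]
    omega
  have h2 : ∀ m s : ℕ, ba (1 + m + s - 1) = ba (m + s) := by
    intro m s
    have h3 : 1 + m + s - 1 = m + s := by omega
    rw [h3]
  unfold Qsum W
  rw [h1, Finset.sum_Ico_eq_sum_range, Nat.add_sub_cancel]
  refine Finset.sum_congr rfl fun m _ => ?_
  rw [Finset.prod_inv_distrib, one_div, Finset.prod_congr rfl]
  intro s _
  show ((ba (1 + m + s - 1) : ℕ) : ℝ) = (ba (m + s) : ℝ)
  rw [h2]

/-! ### Expansions -/

theorem prodQ_zero (q : ℕ → ℕ) : prodQ q 0 = 1 := by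
  unfold prodQ
  simp

theorem prodQ_succ (q : ℕ → ℕ) (n : ℕ) : prodQ q (n + 1) = prodQ q n * q (n + 1) := by
  unfold prodQ
  rw [Finset.prod_Icc_succ_top (by omega)]

theorem prodQ_ge (q : ℕ → ℕ) (hq : IsBasic q) (n : ℕ) : 2 ^ n ≤ prodQ q n := by
  induction n with
  | zero => rw [prodQ_zero, pow_zero]
  | succ n ih =>
    rw [prodQ_succ, pow_succ]
    exact Nat.mul_le_mul ih (hq _ (by omega))

theorem prodQ_pos (q : ℕ → ℕ) (hq : IsBasic q) (n : ℕ) : (0 : ℝ) < prodQ q n := by
  have h1 := prodQ_ge q hq n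
  have h2 : 0 < prodQ q n := lt_of_lt_of_le (Nat.pow_pos (by norm_num)) h1
  exact_mod_cast h2

/-- The telescoping series. -/
theorem telescope (q : ℕ → ℕ) (hq : IsBasic q) (n : ℕ) :
    HasSum (fun i : ℕ => ((q (i + n + 1) - 1 : ℕ) : ℝ) / prodQ q (i + n + 1))
      (1 / prodQ q n) := by
  rw [hasSum_iff_tendsto_nat_of_nonneg (fun i => by positivity)]
  have h1 : ∀ N : ℕ, ∑ i ∈ Finset.range N,
      ((q (i + n + 1) - 1 : ℕ) : ℝ) / prodQ q (i + n + 1)
      = 1 / prodQ q n - 1 / prodQ q (N + n) := by
    intro N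
    induction N with
    | zero => simp
    | succ N ih =>
      rw [Finset.sum_range_succ, ih]
      have h2 : N + 1 + n = N + n + 1 := by omega
      rw [h2, prodQ_succ]
      have h3 := prodQ_pos q hq (N + n)
      have h4 : 2 ≤ q (N + n + 1) := hq _ (by omega)
      have h5 : (0 : ℝ) < q (N + n + 1) := by
        have : 0 < q (N + n + 1) := by omega
        exact_mod_cast this
      rw [Nat.cast_sub (by omega), Nat.cast_one]
      push_cast
      field_simp
      ring
  simp_rw [h1]
  have h6 : Tendsto (fun N : ℕ => 1 / (prodQ q (N + n) : ℝ)) atTop (nhds 0) := by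
    have h7 : Tendsto (fun N : ℕ => (1 / 2 : ℝ) ^ N) atTop (nhds 0) :=
      tendsto_pow_atTop_nhds_zero_of_lt_one (by norm_num) (by norm_num)
    refine squeeze_zero (fun N => by positivity) (fun N => ?_) h7
    rw [one_div_pow]
    apply one_div_le_one_div_of_le (by positivity)
    have h8 := prodQ_ge q hq (N + n)
    have h9 : 2 ^ N ≤ prodQ q (N + n) :=
      le_trans (Nat.pow_le_pow_right (by norm_num) (by omega)) h8
    exact_mod_cast h9
  have h10 := (tendsto_const_nhds (x := 1 / (prodQ q n : ℝ))).sub h6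
  rw [sub_zero] at h10
  exact h10

/-- The digits of an expansion are determined by `x`. -/
theorem digit_unique (q : ℕ → ℕ) (hq : IsBasic q) (x : ℝ) (E₀ : ℤ) (E : ℕ → ℕ)
    (h : IsExpansion q x E₀ E) (n : ℕ) :
    (E (n + 1) : ℤ) = ⌊x * prodQ q (n + 1)⌋ % (q (n + 1) : ℤ) := by
  -- the tail
  have tail : ∀ m, 0 ≤ x - E₀ - ∑ i ∈ Finset.range m, (E (i + 1) : ℝ) / prodQ q (i + 1) ∧
      x - E₀ - ∑ i ∈ Finset.range m, (E (i + 1) : ℝ) / prodQ q (i + 1) < 1 / prodQ q m := by
    intro m
    have h1 := (hasSum_nat_add_iff' (f := fun n : ℕ => (E (n + 1) : ℝ) / prodQ q (n + 1)) m).2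
      h.sum
    constructor
    · exact h1.nonneg (fun i => by positivity)
    · obtain ⟨j, hj1, hj2, hj3⟩ := h.ne (m + 1)
      refine hasSum_lt (f := fun i : ℕ => (E (i + m + 1) : ℝ) / prodQ q (i + m + 1))
        (g := fun i : ℕ => ((q (i + m + 1) - 1 : ℕ) : ℝ) / prodQ q (i + m + 1))
        (i := j - m - 1) ?_ ?_ h1 (telescope q hq m)
      · intro i
        apply div_le_div_of_nonneg_right _ (prodQ_pos q hq _).le
        have := h.lt (i + m + 1) (by omega)
        have h2 : E (i + m + 1) ≤ q (i + m + 1) - 1 := by omega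
        exact_mod_cast h2
      · have h3 : j - m - 1 + m + 1 = j := by omega
        rw [h3]
        apply div_lt_div_of_pos_right _ (prodQ_pos q hq _)
        have := h.lt j hj2
        have h4 : E j < q j - 1 := by omega
        exact_mod_cast h4
  -- the integers
  have hI : ∀ m, ∃ I : ℤ, (I : ℝ) = (E₀ + ∑ i ∈ Finset.range m,
      (E (i + 1) : ℝ) / prodQ q (i + 1)) * prodQ q m := by
    intro m
    induction m with
    | zero => exact ⟨E₀, by rw [Finset.sum_range_zero, prodQ_zero]; simp⟩
    | succ m ih =>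
      obtain ⟨I, hI⟩ := ih
      refine ⟨I * q (m + 1) + E (m + 1), ?_⟩
      rw [Finset.sum_range_succ, prodQ_succ]
      push_cast
      rw [hI]
      have h3 := prodQ_pos q hq m
      have h4 : 2 ≤ q (m + 1) := hq _ (by omega)
      have h5 : (0 : ℝ) < q (m + 1) := by
        have : 0 < q (m + 1) := by omega
        exact_mod_cast this
      field_simp
      ring
  obtain ⟨I, hIm⟩ := hI n
  have hfl : ⌊x * prodQ q (n + 1)⌋ = I * q (n + 1) + E (n + 1) := by
    rw [Int.floor_eq_iff]
    obtain ⟨t1, t2⟩ := tail (n + 1)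
    have h3 := prodQ_pos q hq n
    have h6 := prodQ_pos q hq (n + 1)
    have h4 : 2 ≤ q (n + 1) := hq _ (by omega)
    have h5 : (0 : ℝ) < q (n + 1) := by
      have : 0 < q (n + 1) := by omega
      exact_mod_cast this
    have h7 : ((I * q (n + 1) + E (n + 1) : ℤ) : ℝ) = (E₀ + ∑ i ∈ Finset.range (n + 1),
        (E (i + 1) : ℝ) / prodQ q (i + 1)) * prodQ q (n + 1) := by
      rw [Finset.sum_range_succ, prodQ_succ]
      push_cast
      rw [hIm]
      field_simp
      ring
    rw [h7]
    constructor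
    · apply mul_le_mul_of_nonneg_right _ h6.le
      linarith
    · have h8 : x < E₀ + ∑ i ∈ Finset.range (n + 1), (E (i + 1) : ℝ) / prodQ q (i + 1) +
          1 / prodQ q (n + 1) := by linarith
      calc x * prodQ q (n + 1) < (E₀ + ∑ i ∈ Finset.range (n + 1),
            (E (i + 1) : ℝ) / prodQ q (i + 1) + 1 / prodQ q (n + 1)) * prodQ q (n + 1) :=
            mul_lt_mul_of_pos_right h8 h6
        _ = _ := by
            rw [add_mul, one_div, inv_mul_cancel₀ h6.ne']
  rw [hfl]
  have h9 := h.lt (n + 1) (by omega)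
  rw [Int.add_comm, Int.add_mul_emod_self_right, Int.emod_eq_of_lt (by positivity)
    (by exact_mod_cast h9)]

/-- Every sequence of digits `E n ≤ q n - 2` is the sequence of digits of a real number. -/
theorem exists_expansion (q : ℕ → ℕ) (hq : IsBasic q) (E : ℕ → ℕ)
    (hE : ∀ n, 1 ≤ n → E n + 2 ≤ q n) : ∃ x : ℝ, IsExpansion q x 0 E := by
  have h1 := telescope q hq 0
  rw [prodQ_zero] at h1
  simp only [Nat.add_zero] at h1
  have hle : ∀ i : ℕ, (E (i + 1) : ℝ) / prodQ q (i + 1)
      ≤ ((q (i + 1) - 1 : ℕ) : ℝ) / prodQ q (i + 1) := by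
    intro i
    apply div_le_div_of_nonneg_right _ (prodQ_pos q hq _).le
    have := hE (i + 1) (by omega)
    have h2 : E (i + 1) ≤ q (i + 1) - 1 := by omega
    exact_mod_cast h2
  have hsum : Summable (fun i : ℕ => (E (i + 1) : ℝ) / prodQ q (i + 1)) :=
    Summable.of_nonneg_of_le (fun i => by positivity) hle h1.summable
  obtain ⟨x, hx⟩ := hsum
  refine ⟨x, ?_, ?_, ?_, ?_⟩
  · symm
    rw [Int.floor_eq_iff]
    constructor
    · have := hx.nonneg (fun i => by positivity)
      simpa using this
    · have h3 : x < 1 / ((1 : ℕ) : ℝ) := by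
        refine hasSum_lt (i := 0) hle ?_ hx h1
        apply div_lt_div_of_pos_right _ (prodQ_pos q hq _)
        have := hE (0 + 1) (by omega)
        have h4 : E (0 + 1) < q (0 + 1) - 1 := by omega
        exact_mod_cast h4
      simpa using h3
  · intro n hn
    have := hE n hn
    omega
  · intro m
    refine ⟨m + 1, by omega, by omega, ?_⟩
    have := hE (m + 1) (by omega)
    omega
  · simpa using hx

theorem occurrences_congr (E E' : ℕ → ℕ) (h : ∀ n, 1 ≤ n → E n = E' n) {k : ℕ}
    (B : Fin k → ℕ) (n : ℕ) : occurrences E B n = occurrences E' B n := by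
  unfold occurrences
  congr 1
  apply Finset.filter_congr
  intro i hi
  rw [Finset.mem_Icc] at hi
  constructor
  · intro h1 s
    rw [← h (i + s) (by omega)]
    exact h1 s
  · intro h1 s
    rw [h (i + s) (by omega)]
    exact h1 s

/-- For every set `A` of positive integers there are `Q` and `x` such that `x` is `Q`-normal
exactly of the orders in `A`. -/
theorem main (A : Set ℕ) : ∃ q : ℕ → ℕ, IsBasic q ∧ Tendsto q atTop atTop ∧
    FullyDivergent q ∧ ∃ x : ℝ, ∀ k, 1 ≤ k → (IsNormal q k x ↔ k ∈ A) := by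
  have hbasic : IsBasic fun i => ba (i - 1) := by
    intro n _
    have := bs_ge (stage (n - 1))
    show 2 ≤ bs (stage (n - 1))
    omega
  refine ⟨fun i => ba (i - 1), hbasic, ?_, ?_, ?_⟩
  · have h1 : Tendsto (fun i : ℕ => stage (i - 1)) atTop atTop :=
      stage_tendsto.comp (tendsto_sub_atTop_nat 1)
    refine tendsto_atTop_mono ?_ h1
    intro i
    have := bs_ge (stage (i - 1))
    show stage (i - 1) ≤ bs (stage (i - 1))
    omega
  · intro k _
    have h1 := W_sum_tendsto k
    refine h1.congr ?_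
    intro n
    rw [Qsum_eq]
  · obtain ⟨x, hx⟩ := exists_expansion (fun i => ba (i - 1)) hbasic (fun i => dg A (i - 1))
      (fun n _ => dg_add_two_le A (n - 1))
    have hlim : ∀ k, 1 ≤ k → ∀ B : Fin k → ℕ,
        Tendsto (fun n => (occurrences (fun i => dg A (i - 1)) B n : ℝ) /
          Qsum (fun i => ba (i - 1)) k n) atTop (nhds (dl A k)) := by
      intro k hk B
      have hne : List.ofFn B ≠ [] := by
        intro h
        have := congrArg List.length h
        rw [List.length_ofFn, List.length_nil] at this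
        omega
      have h1 := lim_ratio A (List.ofFn B) hne
      have h2 : (List.ofFn B).length = k := List.length_ofFn
      have h3 : (dl A (List.ofFn B).length : ℝ) = dl A k := by rw [h2]
      rw [h3] at h1
      refine h1.congr ?_
      intro n
      rw [occurrences_eq (dg A) hk B n, Qsum_eq, h2]
    refine ⟨x, fun k hk => ⟨?_, ?_⟩⟩
    · rintro ⟨E₀, E, hE, hB⟩
      by_contra hA
      have hEE : ∀ n, 1 ≤ n → E n = dg A (n - 1) := by
        intro n hn
        obtain ⟨m, rfl⟩ : ∃ m, n = m + 1 := ⟨n - 1, by omega⟩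
        have h1 := digit_unique _ hbasic x E₀ E hE m
        have h2 := digit_unique _ hbasic x 0 _ hx m
        rw [← h2] at h1
        exact_mod_cast h1
      have h1 := hB (fun _ => 0)
      have h2 := hlim k hk (fun _ => 0)
      have h3 : Tendsto (fun n => (occurrences E (fun _ : Fin k => 0) n : ℝ) /
          Qsum (fun i => ba (i - 1)) k n) atTop (nhds (dl A k)) := by
        refine h2.congr ?_
        intro n
        rw [occurrences_congr E _ hEE]
      have h4 := tendsto_nhds_unique h1 h3
      unfold dl at h4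
      rw [if_neg hA] at h4
      norm_num at h4
    · intro hA
      refine ⟨0, _, hx, fun B => ?_⟩
      have h2 := hlim k hk B
      unfold dl at h2
      rw [if_pos hA, Nat.cast_one] at h2
      exact h2

/-- **Main result.**  Every partition `A ⊔ B` of the positive integers into non-empty sets is
realised: there are a fully divergent basic sequence `Q` and a real `x` that is `Q`-normal of all
orders in `A` and not `Q`-normal of at least one order in `B`.  In fact (second part), for every
set `A` there are a fully divergent basic sequence `Q` with `q_n → ∞` and a real `x` that is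
`Q`-normal exactly of the orders in `A`. -/
theorem result :
    (∀ A B : Set ℕ, A ∪ B = {n | 1 ≤ n} → Disjoint A B → A.Nonempty → B.Nonempty →
      ∃ q : ℕ → ℕ, IsBasic q ∧ FullyDivergent q ∧
        ∃ x : ℝ, x ∈ (⋂ k ∈ A, normalSet q k) \ ⋂ j ∈ B, normalSet q j) ∧
    (∀ A : Set ℕ, ∃ q : ℕ → ℕ, IsBasic q ∧ Tendsto q atTop atTop ∧ FullyDivergent q ∧
      ∃ x : ℝ, ∀ k, 1 ≤ k → (x ∈ normalSet q k ↔ k ∈ A)) := by
  refine ⟨?_, main⟩
  intro A B hAB hdis _ hBne
  obtain ⟨q, hq, _, hdiv, x, hx⟩ := main A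
  refine ⟨q, hq, hdiv, x, ?_, ?_⟩
  · rw [Set.mem_iInter₂]
    intro k hk
    have h1 : k ∈ A ∪ B := Or.inl hk
    rw [hAB] at h1
    exact (hx k h1).2 hk
  · obtain ⟨j, hj⟩ := hBne
    have h1 : j ∈ A ∪ B := Or.inr hj
    rw [hAB] at h1
    rw [Set.mem_iInter₂]
    intro h
    have h2 := (hx j h1).1 (h j hj)
    exact Set.disjoint_left.1 hdis h2 hj

end Pool.Agent.Results.MP_f007e6_nt.Orders
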